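import Pool.Agent.H32.Walls

set_option autoImplicit false

namespace Pool.Agent.Results.MP_88b750_co.Middle

open Pool.Agent.H32.Walls

/-- In the middle regime `T (m-2) ≤ n < T (m-1)`, `m ≥ 7`, the least wall length of an
admissible tiling exists and equals `n + 2 (m - 2)`. -/
theorem result (m n : ℕ) (hm : 7 ≤ m) (h1 : (m - 2) * (m - 1) / 2 ≤ n) (h2 : n < (m - 1) * m / 2) :
    IsLeast (walls n m) ((n : ℤ) + 2 * ((m : ℤ) - 2)) := by
  obtain ⟨k, rfl⟩ : ∃ k, m = k + 5 := ⟨m - 5, by omega⟩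
  have e := T2 (k + 3)
  have e1 : (k + 5 - 2) * (k + 5 - 1) = (k + 3) * (k + 3 + 1) := rfl
  have t : T (k + 3) = T (k + 1) + (k + 2) + (k + 3) := rfl
  have t1 : 1 ≤ T (k + 1) := Tm (by omega : 1 ≤ k + 1)
  exact ⟨upper n k (by omega) (by omega), lower (by omega) (by omega) (by omega)⟩

end Pool.Agent.Results.MP_88b750_co.Middle
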